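import Mathlib

/-!
# The 3-adic valuation of the sums `a(n) = ∑ k, C(n,k) C(n+k,k)`

We prove that `b(n) = v₃(a(n))` satisfies the conjectured recursion for every `n`.

The idea: `a(n)` is the coefficient of `X^n` in `((1+X)(2+X))^n = ((2+X^2)+3X)^n`, so
`a(n) = ∑ i, C(n,i) 3^i [X^(n-i)](2+X^2)^(n-i)`, and in this expansion the term with the least
possible `i` (namely `i = n % 2`) has strictly smaller 3-adic valuation than all the others.
This gives `b(n) = n % 2 + v₃(n! / (⌊n/2⌋!)^2)`, hence `b(n) = n % 2 + b(⌊n/3⌋)`.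
-/

namespace Pool.Agent.Results.MP_a9cc6a_nt.DelannoyThreeAdic

open Finset Polynomial

/-- The sum `a(n) = ∑_{k=0}^n C(n,k) C(n+k,k)`. -/
def a (n : ℕ) : ℕ := ∑ k ∈ range (n + 1), n.choose k * (n + k).choose k

/-- `b(n)` is the exponent of the largest power of `3` dividing `a(n)`. -/
def b (n : ℕ) : ℕ := padicValNat 3 (a n)

/-- coefficient of `X^m` in `(2 + X^2)^m` -/
def e (m : ℕ) : ℕ := if Even m then m.choose (m / 2) * 2 ^ (m / 2) else 0

lemma coeff_two_add_sq (m : ℕ) : ((C 2 + X ^ 2 : ℕ[X]) ^ m).coeff m = e m := by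
  rw [add_comm, add_pow, finsetSum_coeff]
  have h : ∀ j ∈ range (m + 1), (((X ^ 2 : ℕ[X]) ^ j * C 2 ^ (m - j) * (m.choose j : ℕ[X])).coeff m)
      = if 2 * j = m then 2 ^ (m - j) * m.choose j else 0 := by
    intro j _
    rw [← pow_mul, ← C_pow, mul_assoc]
    have : (C (2 ^ (m - j)) * (m.choose j : ℕ[X]) : ℕ[X]) = C (2 ^ (m - j) * m.choose j) := by
      rw [C_mul]; simp
    rw [this, coeff_mul_C, coeff_X_pow]
    by_cases h2 : 2 * j = m
    · simp [h2]
    · rw [if_neg h2, if_neg (fun h => h2 h.symm)]; simp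
  rw [sum_congr rfl h]
  unfold e
  by_cases hm : Even m
  · rw [if_pos hm]
    obtain ⟨r, hr⟩ := hm
    have h1 : m / 2 = r := by omega
    rw [h1, sum_eq_single r]
    · rw [if_pos (by omega)]
      have : m - r = r := by omega
      rw [this]; ring
    · intro j _ hj
      rw [if_neg (by omega)]
    · intro hr'
      exfalso; apply hr'; simp; omega
  · rw [if_neg hm]
    apply sum_eq_zero
    intro j _
    rw [if_neg]
    intro h2
    apply hm
    exact ⟨j, by omega⟩

lemma a_eq_coeff (n : ℕ) : (((1 + X) * (C 2 + X) : ℕ[X]) ^ n).coeff n = a n := by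
  have h : (C 2 + X : ℕ[X]) = (1 + X) + 1 := by
    have : (C 2 : ℕ[X]) = 2 := rfl
    rw [this]; ring
  rw [mul_pow, h, add_pow (1 + X : ℕ[X]) 1 n, mul_sum, finsetSum_coeff]
  unfold a
  apply sum_congr rfl
  intro k hk
  have h2 : ((1 + X : ℕ[X]) ^ n * ((1 + X) ^ k * 1 ^ (n - k) * (n.choose k : ℕ[X])))
      = (1 + X) ^ (n + k) * C (n.choose k) := by
    rw [one_pow, mul_one, ← mul_assoc, ← pow_add]; simp
  rw [h2, coeff_mul_C, coeff_one_add_X_pow]
  rw [mul_comm]
  congr 1
  simp
  exact Nat.choose_symm_add.symm ▸ rfl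

lemma a_eq_sum (n : ℕ) : a n = ∑ i ∈ range (n + 1), n.choose i * 3 ^ i * e (n - i) := by
  rw [← a_eq_coeff]
  have h : ((1 + X) * (C 2 + X) : ℕ[X]) = C 3 * X + (C 2 + X ^ 2) := by
    have h2 : (C 2 : ℕ[X]) = 2 := rfl
    have h3 : (C 3 : ℕ[X]) = 3 := rfl
    rw [h2, h3]; ring
  rw [h, add_pow, finsetSum_coeff]
  apply sum_congr rfl
  intro i hi
  have hi' : i ≤ n := by simpa [Nat.lt_succ_iff] using hi
  have h2 : ((C 3 * X : ℕ[X]) ^ i * (C 2 + X ^ 2) ^ (n - i) * (n.choose i : ℕ[X]))
      = C (n.choose i * 3 ^ i) * ((C 2 + X ^ 2) ^ (n - i) * X ^ i) := by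
    rw [mul_pow, C_mul, C_pow]; simp; ring
  rw [h2, coeff_C_mul]
  congr 1
  rw [← coeff_two_add_sq (n - i)]
  conv_lhs => rw [show n = (n - i) + i by omega]
  rw [coeff_mul_X_pow]
  simp

/-- `v₃(i!) < i - 1` for `i ≥ 2`. -/
lemma val_factorial_lt {i : ℕ} (hi : 2 ≤ i) : padicValNat 3 i.factorial < i - 1 := by
  have : Fact (Nat.Prime 3) := ⟨Nat.prime_three⟩
  have h := sub_one_mul_padicValNat_factorial (p := 3) i
  rcases Nat.lt_or_ge 2 i with h3 | h3
  · have : (3 - 1) * padicValNat 3 i.factorial ≤ i := by rw [h]; exact Nat.sub_le _ _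
    omega
  · have hi2 : i = 2 := le_antisymm h3 hi
    subst hi2
    have : padicValNat 3 (Nat.factorial 2) = 0 := by
      apply padicValNat.eq_zero_of_not_dvd
      decide
    rw [this]; norm_num

/-- the valuation of a nonzero term of the expansion -/
lemma val_term (n j r ε : ℕ) (hn : n = (2 * j + ε) + 2 * r) :
    padicValNat 3 (n.choose (2 * j + ε) * 3 ^ (2 * j + ε) * e (n - (2 * j + ε)))
      + padicValNat 3 (2 * j + ε).factorial + 2 * padicValNat 3 r.factorial
      = 2 * j + ε + padicValNat 3 n.factorial := by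
  have : Fact (Nat.Prime 3) := ⟨Nat.prime_three⟩
  have h1 : n - (2 * j + ε) = 2 * r := by omega
  have h2 : e (2 * r) = (2 * r).choose r * 2 ^ r := by
    unfold e; rw [if_pos (even_two_mul r)]; simp
  have hi : 2 * j + ε ≤ n := by omega
  have h3 : n.choose (2 * j + ε) * (2 * j + ε).factorial * (2 * r).factorial = n.factorial := by
    have := Nat.choose_mul_factorial_mul_factorial hi
    rwa [h1] at this
  have h4 : (2 * r).choose r * r.factorial * r.factorial = (2 * r).factorial := by
    have := Nat.choose_mul_factorial_mul_factorial (show r ≤ 2 * r by omega)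
    rwa [show 2 * r - r = r by omega] at this
  have hc1 : n.choose (2 * j + ε) ≠ 0 := (Nat.choose_pos hi).ne'
  have hc2 : (2 * r).choose r ≠ 0 := (Nat.choose_pos (by omega)).ne'
  have f1 := Nat.factorial_ne_zero (2 * j + ε)
  have f2 := Nat.factorial_ne_zero r
  have h2pow : padicValNat 3 (2 ^ r) = 0 := by
    apply padicValNat.eq_zero_of_not_dvd
    intro h
    have := Nat.Prime.dvd_of_dvd_pow Nat.prime_three h
    norm_num at this
  rw [h1, h2, ← h3, ← h4]
  rw [padicValNat.mul (mul_ne_zero hc1 (by positivity)) (mul_ne_zero hc2 (by positivity)),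
    padicValNat.mul hc1 (by positivity), padicValNat.mul hc2 (by positivity),
    padicValNat.prime_pow, h2pow,
    padicValNat.mul (mul_ne_zero hc1 f1) (mul_ne_zero (mul_ne_zero hc2 f2) f2),
    padicValNat.mul hc1 f1, padicValNat.mul (mul_ne_zero hc2 f2) f2,
    padicValNat.mul hc2 f2]
  ring

/-- Key formula: `b(n) + 2 v₃(⌊n/2⌋!) = v₃(n!) + (n mod 2)`. -/
lemma b_add (n : ℕ) :
    b n + 2 * padicValNat 3 (n / 2).factorial = padicValNat 3 n.factorial + n % 2 := by
  have : Fact (Nat.Prime 3) := ⟨Nat.prime_three⟩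
  -- the dominant term
  set t : ℕ := n.choose (n % 2) * 3 ^ (n % 2) * e (n - n % 2) with ht
  have hv : padicValNat 3 t + 2 * padicValNat 3 (n / 2).factorial
      = n % 2 + padicValNat 3 n.factorial := by
    have := val_term n 0 (n / 2) (n % 2) (by omega)
    simp only [mul_zero, zero_add] at this
    have h0 : padicValNat 3 (n % 2).factorial = 0 := by
      apply padicValNat.eq_zero_of_not_dvd
      rcases Nat.mod_two_eq_zero_or_one n with h | h <;> rw [h] <;> decide
    rw [h0] at this
    rw [← this, ht, add_zero]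
  have ht0 : t ≠ 0 := by
    rw [ht]
    have h1 : n - n % 2 = 2 * (n / 2) := by omega
    have h2 : e (2 * (n / 2)) = (2 * (n / 2)).choose (n / 2) * 2 ^ (n / 2) := by
      unfold e; rw [if_pos (even_two_mul _)]; simp
    rw [h1, h2]
    have := Nat.choose_pos (show n % 2 ≤ n from Nat.mod_le _ _)
    have := Nat.choose_pos (show n / 2 ≤ 2 * (n / 2) by omega)
    positivity
  -- all other terms are divisible by a higher power of 3
  have hdvd : ∀ i ∈ (range (n + 1)).erase (n % 2),
      3 ^ (padicValNat 3 t + 1) ∣ n.choose i * 3 ^ i * e (n - i) := by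
    intro i hi
    rw [mem_erase, mem_range] at hi
    obtain ⟨hi1, hi2⟩ := hi
    by_cases hpar : i % 2 = n % 2
    · have hi3 : i = 2 * (i / 2) + n % 2 := by omega
      have hnn : n = (2 * (i / 2) + n % 2) + 2 * (n / 2 - i / 2) := by omega
      have hval := val_term n (i / 2) (n / 2 - i / 2) (n % 2) hnn
      rw [← hi3] at hval
      have hlt : padicValNat 3 i.factorial < i - 1 := val_factorial_lt (by omega)
      have hle : padicValNat 3 (n / 2 - i / 2).factorial ≤ padicValNat 3 (n / 2).factorial := by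
        rw [← padicValNat_dvd_iff_le (Nat.factorial_ne_zero _)]
        exact dvd_trans pow_padicValNat_dvd (Nat.factorial_dvd_factorial (Nat.sub_le _ _))
      have hne : n.choose i * 3 ^ i * e (n - i) ≠ 0 := by
        have h1 : n - i = 2 * (n / 2 - i / 2) := by omega
        have h2 : e (2 * (n / 2 - i / 2))
            = (2 * (n / 2 - i / 2)).choose (n / 2 - i / 2) * 2 ^ (n / 2 - i / 2) := by
          unfold e; rw [if_pos (even_two_mul _)]; simp
        rw [h1, h2]
        have := Nat.choose_pos (show i ≤ n by omega)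
        have := Nat.choose_pos (show n / 2 - i / 2 ≤ 2 * (n / 2 - i / 2) by omega)
        positivity
      rw [padicValNat_dvd_iff_le hne]
      have : n % 2 < 2 := Nat.mod_lt _ (by norm_num)
      omega
    · have : e (n - i) = 0 := by
        unfold e
        rw [if_neg]
        rw [Nat.even_iff]
        omega
      rw [this]; simp
  have hsum : a n = t + ∑ i ∈ (range (n + 1)).erase (n % 2), n.choose i * 3 ^ i * e (n - i) := by
    rw [a_eq_sum, ht]
    rw [add_sum_erase (range (n + 1)) (fun i => n.choose i * 3 ^ i * e (n - i))]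
    rw [mem_range]
    have := Nat.mod_le n 2
    omega
  have hrest := dvd_sum hdvd
  have hb : b n = padicValNat 3 t := by
    unfold b
    have ha0 : a n ≠ 0 := by rw [hsum]; omega
    apply le_antisymm
    · by_contra hcon
      have hcon : padicValNat 3 t + 1 ≤ padicValNat 3 (a n) := by omega
      rw [← padicValNat_dvd_iff_le ha0, hsum, Nat.dvd_add_left hrest,
        padicValNat_dvd_iff_le ht0] at hcon
      omega
    · rw [← padicValNat_dvd_iff_le ha0, hsum]
      apply dvd_add pow_padicValNat_dvd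
      exact dvd_trans (pow_dvd_pow 3 (Nat.le_succ _)) hrest
  rw [hb, hv]; ring

/-- `b(n) = (n mod 2) + b(⌊n/3⌋)`. -/
lemma b_rec (n : ℕ) : b n = n % 2 + b (n / 3) := by
  have : Fact (Nat.Prime 3) := ⟨Nat.prime_three⟩
  have key (m : ℕ) : padicValNat 3 m.factorial = padicValNat 3 (m / 3).factorial + m / 3 := by
    rw [← padicValNat_factorial_mul, padicValNat_mul_div_factorial]
  have h1 := b_add n
  have h2 := b_add (n / 3)
  have h3 := key n
  have h4 := key (n / 2)
  have h5 : n / 2 / 3 = n / 3 / 2 := by omega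
  rw [h5] at h4
  omega

theorem result (n : ℕ) :
    b n = if n % 3 = 1 then b (n / 9) + 1 else b (n / 3) + (n / 3) % 2 := by
  split_ifs with h
  · rw [b_rec n, b_rec (n / 3)]
    have h9 : n / 3 / 3 = n / 9 := by omega
    rw [h9]
    omega
  · rw [b_rec n]
    omega

end Pool.Agent.Results.MP_a9cc6a_nt.DelannoyThreeAdic
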